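import Pool.Agent.Y920.EP.Base

/-!
# Comparability, sums of units, roots of unity, differences of powers (parts L1, CALC, RU, DIFF,
SU of project EP)
-/

set_option autoImplicit false

namespace Pool.Agent.Y705.EP

open Pool.Agent.Y920.EP

section

variable {F : Type} [Field F] {A : Type} [CommGroup A] {φ : Fˣ →* A}

lemma exists_add (h : φ (-1) = 1) {x y : Fˣ} (hxy : φ x ≠ φ y) : ∃ z : Fˣ, (z : F) = x + y :=
  ⟨Units.mk0 _ (add_ne h hxy), Units.val_mk0 _⟩

lemma exists_one_add (h : φ (-1) = 1) {y : Fˣ} (hy : φ y ≠ 1) : ∃ z : Fˣ, (z : F) = 1 + y := by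
  obtain ⟨z, hz⟩ := exists_add h (x := 1) (y := y) (by rw [map_one]; exact fun e => hy e.symm)
  exact ⟨z, by rw [hz, Units.val_one]⟩

lemma back {M : ℕ} (h : φ (-1) = 1) (hL : HL φ M) {y z : Fˣ} (hz : (z : F) = 1 + y)
    (h1 : φ z ≠ 1) : Le φ M z y := by
  refine (hL z (-1) y ?_ ?_).1
  · rw [hz, Units.val_neg, Units.val_one]; ring
  · rw [h]; exact h1

lemma back' {M : ℕ} (h : φ (-1) = 1) (hL : HL φ M) {y z : Fˣ} (hz : (z : F) = 1 + y)
    (h1 : φ z = 1) (hy : φ y ≠ 1) : Le φ M z 1 := by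
  refine (hL z (-y) 1 ?_ ?_).1
  · rw [hz, Units.val_neg, Units.val_one]; ring
  · rw [h1, phi_neg h]; exact fun e => hy e.symm

lemma forw {M : ℕ} (hL : HL φ M) {y z : Fˣ} (hz : (z : F) = 1 + y)
    (hy : φ y ≠ 1) : Le φ M 1 z ∧ Le φ M y z :=
  hL 1 y z (by rw [hz, Units.val_one]) (by rw [map_one]; exact fun e => hy e.symm)

end

/-- Comparability and sums of units. -/
theorem t_CALC : S_CALC := by
  intro F _ A _ φ M h hL
  refine ⟨fun y hy => ?_, fun k y z hy hen hz => ?_, fun r s hrs hr hs hsr => ?_⟩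
  · obtain ⟨z, hz⟩ := exists_one_add h hy
    have hz' := forw hL hz hy
    by_cases h1 : φ z = 1
    · right; rw [two_mul]; exact le_tr hz'.2 (back' h hL hz h1 hy)
    · left; rw [two_mul]; exact le_tr hz'.1 (back h hL hz h1)
  · have hz' := forw hL hz hy
    refine ⟨le_mono (Nat.le_add_left _ _) hz'.1, ?_⟩
    by_cases h1 : φ z = 1
    · exact le_mono (Nat.le_add_left _ _) (back' h hL hz h1 hy)
    · rw [add_comm]; exact le_tr (back h hL hz h1) hen.2
  · constructor
    · refine (hL 1 (-s) r ?_ ?_).1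
      · rw [Units.val_neg, Units.val_one]; linear_combination hrs
      · rw [map_one, phi_neg h]; exact fun e => hs e.symm
    · refine (hL r s 1 ?_ (fun e => hsr e.symm)).1
      rw [Units.val_one, hrs]

/-- Roots of unity are units. -/
theorem t_RU : S_RU := by
  intro F _ A _ φ M h hL hC r hr hen n e hn hen1
  obtain ⟨c1, -, -⟩ := hC F A φ M h hL
  have key : Le φ (3 * M) e 1 ∨ Le φ (3 * M) 1 e := by
    by_cases he : φ e = 1
    · have h1 : φ (e * r) ≠ 1 := by rw [map_mul, he, one_mul]; exact hr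
      have h2 : Le φ M e (e * r) := by
        have := le_mul e hen.1
        rwa [mul_one] at this
      have h3 : Le φ M (e * r) e := by
        have := le_mul e hen.2
        rwa [mul_one] at this
      rcases c1 _ h1 with h4 | h4
      · right
        exact le_mono (by omega) (le_tr h4 h3)
      · left
        exact le_mono (by omega) (le_tr h2 h4)
    · rcases c1 _ he with h4 | h4
      · exact Or.inr (le_mono (by omega) h4)
      · exact Or.inl (le_mono (by omega) h4)
  have hn1 : e ^ (n - 1 + 1) = 1 := by rw [Nat.sub_add_cancel hn]; exact hen1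
  have hb1 : (n - 1) * (3 * M) ≤ n * (3 * M) := Nat.mul_le_mul_right _ (Nat.sub_le _ _)
  have hb2 : 3 * M ≤ n * (3 * M) := Nat.le_mul_of_pos_left _ hn
  rcases key with hk | hk
  · have h1 : ∀ i : ℕ, Le φ (i * (3 * M)) (e ^ (i + 1)) e := by
      intro i
      induction i with
      | zero => rw [zero_add, pow_one]; exact le_refl' _ _
      | succ i ih =>
        have h2 := le_mul (e ^ (i + 1)) hk
        rw [mul_one, ← pow_succ] at h2
        rw [Nat.succ_mul, add_comm]
        exact le_tr h2 ih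
    have h2 := h1 (n - 1)
    rw [hn1] at h2
    exact ⟨le_mono hb1 h2, le_mono hb2 hk⟩
  · have h1 : ∀ i : ℕ, Le φ (i * (3 * M)) e (e ^ (i + 1)) := by
      intro i
      induction i with
      | zero => rw [zero_add, pow_one]; exact le_refl' _ _
      | succ i ih =>
        have h2 := le_mul (e ^ (i + 1)) hk
        rw [mul_one, ← pow_succ] at h2
        rw [Nat.succ_mul]
        exact le_tr ih h2
    have h2 := h1 (n - 1)
    rw [hn1] at h2
    exact ⟨le_mono hb2 hk, le_mono hb1 h2⟩

/-- Differences of `p`-th powers of units. -/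
theorem t_DIFF : S_DIFF := by
  intro hC hR F _ p hp hp2 ζ hζ A _ φ M h hL y z hy hyE hzE hyz
  classical
  obtain ⟨-, c2, -⟩ := hC F A φ M h hL
  have hp0 : 0 < p := hp.pos
  have _ : NeZero p := ⟨hp0.ne'⟩
  have hζF : IsPrimitiveRoot (ζ : F) p := by
    rwa [IsPrimitiveRoot.coe_units_iff]
  have step : ∀ η : F, η ∈ Polynomial.nthRootsFinset p (1 : F) →
      ∃ v : Fˣ, (v : F) = y - η * z ∧ En φ ((6 * p + 4) * M) v := by
    intro η hη
    rw [Polynomial.mem_nthRootsFinset hp0] at hη
    obtain ⟨i, -, hi⟩ := hζF.eq_pow_of_pow_eq_one hη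
    have he : (-(ζ ^ i)) ^ (2 * p) = 1 := by
      rw [pow_mul, neg_sq, ← pow_mul, ← pow_mul, show i * (2 * p) = p * (i * 2) by ring, pow_mul,
        hζ.pow_eq_one, one_pow]
    have hE := hR F A φ M h hL hC y hy hyE (2 * p) (-(ζ ^ i)) (by omega) he
    have hu : φ (-(ζ ^ i) * z / y) ≠ 1 := by
      rw [map_div, neg_mul, phi_neg h]
      intro e
      exact hyz i (div_eq_one.1 e).symm
    obtain ⟨v, hv⟩ := exists_one_add h hu
    have hEu : En φ (2 * p * (3 * M) + M + M) (-(ζ ^ i) * z / y) := en_div (en_mul hE hzE) hyE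
    have hEv := en_mul hyE (c2 _ _ _ hu hEu hv)
    refine ⟨y * v, ?_, en_mono (le_of_eq (by ring)) hEv⟩
    rw [Units.val_mul, hv, ← hi, Units.val_div_eq_div_val, Units.val_mul, Units.val_neg,
      Units.val_pow_eq_pow_val]
    field_simp
    ring
  choose! v hv hvE using step
  refine ⟨∏ η ∈ Polynomial.nthRootsFinset p (1 : F), v η, ?_, ?_⟩
  · rw [Units.coe_prod, hζF.pow_sub_pow_eq_prod_sub_mul _ _ hp0]
    exact Finset.prod_congr rfl fun η hη => hv η hη
  · have h1 := en_prod (Polynomial.nthRootsFinset p (1 : F)) (k := (6 * p + 4) * M) (f := v) hvE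
    rw [hζF.card_nthRootsFinset, ← mul_assoc] at h1
    exact h1

/-- Few classes of small units. -/
theorem t_SU : S_SU := by
  intro F _ A _ φ k G hG
  classical
  choose! w hw1 hw2 hw3 using hG
  have hB : ∀ g ∈ G, ∃ B : Finset A, B.card ≤ k ∧ ∀ u : Fˣ, φ u ∉ B → Ml φ u 1 → Ml φ u (w g) :=
    fun g hg => (hw2 g hg).1
  choose! B hB1 hB2 using hB
  have claim : ∀ g ∈ G, ∀ h ∈ G, g ≠ h → h ∈ B g ∨ g ∈ B h := by
    intro g hg h hh hgh
    by_contra hc
    rw [not_or] at hc
    have h1 := hB2 g hg (w h) (by rw [hw1 h hh]; exact hc.1) (hw3 h hh)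
    have h2 := hB2 h hh (w g) (by rw [hw1 g hg]; exact hc.2) (hw3 g hg)
    obtain ⟨z1, hz1, e1⟩ := h1
    obtain ⟨z2, hz2, e2⟩ := h2
    have h3 : z1 = z2 := Units.ext (by rw [hz1, hz2, add_comm])
    rw [hw1 g hg] at e1
    rw [hw1 h hh] at e2
    rw [h3] at e1
    exact hgh (e1.symm.trans e2)
  let P : Finset (A × A) := G.biUnion fun g => (B g).image fun h => (g, h)
  let P' : Finset (A × A) := G.biUnion fun g => (B g).image fun h => (h, g)
  have hP : P.card ≤ G.card * k := by
    refine Finset.card_biUnion_le.trans ?_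
    rw [← smul_eq_mul]
    exact Finset.sum_le_card_nsmul _ _ _ fun g hg => Finset.card_image_le.trans (hB1 g hg)
  have hP' : P'.card ≤ G.card * k := by
    refine Finset.card_biUnion_le.trans ?_
    rw [← smul_eq_mul]
    exact Finset.sum_le_card_nsmul _ _ _ fun g hg => Finset.card_image_le.trans (hB1 g hg)
  have hsub : G.offDiag ⊆ P ∪ P' := by
    rintro ⟨g, h⟩ hgh
    rw [Finset.mem_offDiag] at hgh
    obtain ⟨hg, hh, hne⟩ := hgh
    rw [Finset.mem_union]
    rcases claim g hg h hh hne with h1 | h1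
    · left
      exact Finset.mem_biUnion.2 ⟨g, hg, Finset.mem_image.2 ⟨h, h1, rfl⟩⟩
    · right
      exact Finset.mem_biUnion.2 ⟨h, hh, Finset.mem_image.2 ⟨g, h1, rfl⟩⟩
  have h1 : G.card * G.card - G.card ≤ G.card * k + G.card * k := by
    rw [← Finset.offDiag_card]
    exact (Finset.card_le_card hsub).trans
      ((Finset.card_union_le _ _).trans (Nat.add_le_add hP hP'))
  rcases Nat.eq_zero_or_pos G.card with h0 | h0
  · omega
  by_contra hc
  push Not at hc
  have h2 : G.card * (2 * k + 2) ≤ G.card * G.card := Nat.mul_le_mul_left _ hc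
  have h3 : G.card * (2 * k + 2) = G.card * k + G.card * k + 2 * G.card := by ring
  omega

end Pool.Agent.Y705.EP
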