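import Pool.Agent.Y705.EP.Calc

/-!
# The basic lemma and the construction of small units (parts L1 and PIG of project EP)
-/

set_option autoImplicit false

namespace Pool.Agent.Y705.EP

open Pool.Agent.Y920.EP

section

variable {F : Type} [Field F] {A : Type} [CommGroup A] {φ : Fˣ →* A} {Nn : A → Subgroup A} {N : ℕ}

lemma exists_NF (hS : Sys φ Nn N) : ∃ NF : A → Finset A, (∀ a, (NF a).card ≤ N) ∧
    ∀ a b, a ≠ 1 → (b ∈ NF a ↔ b ∈ Nn a) := by
  classical
  refine ⟨fun a => if h : a ≠ 1 then (hS.fin a h).1.toFinset else ∅, fun a => ?_,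
    fun a b ha => ?_⟩
  · by_cases h : a ≠ 1
    · simp only [dif_pos h]
      rw [← Set.ncard_eq_toFinset_card _ (hS.fin a h).1]
      exact (hS.fin a h).2
    · simp only [dif_neg h]; simp
  · simp only [dif_pos ha, Set.Finite.mem_toFinset, SetLike.mem_coe]

lemma l1_aux (hS : Sys φ Nn N) {x y z : Fˣ} (hz : (z : F) = x + y) (hxy : φ x ≠ φ y) :
    Le φ (N ^ 2) y z := by
  classical
  have ha : φ y / φ x ≠ 1 := fun e => hxy (div_eq_one.1 e).symm
  obtain ⟨NF, hNF1, hNF2⟩ := exists_NF hS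
  let D : Finset A := (NF (φ y / φ x)).image fun n => φ x / φ z * n
  let B : Finset A := D.biUnion fun g => (NF g).image fun n => φ z * n
  refine ⟨B, ?_, ?_⟩
  · have h1 : B.card ≤ D.card * N := by
      refine Finset.card_biUnion_le.trans ?_
      rw [← smul_eq_mul]
      exact Finset.sum_le_card_nsmul _ _ _ fun g _ => Finset.card_image_le.trans (hNF1 g)
    have h2 : D.card ≤ N := Finset.card_image_le.trans (hNF1 _)
    rw [sq]
    exact h1.trans (Nat.mul_le_mul_right _ h2)
  · rintro w hw ⟨y', hy', e⟩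
    obtain ⟨z', hz'⟩ := exists_add hS.neg (x := x) (y := y') (by rw [e]; exact hxy)
    have hz1 : (z' : F) = z + w := by rw [hz', hy', hz]; ring
    by_cases hg : φ z' = φ z
    · exact ⟨z', hz1, hg⟩
    · exfalso
      apply hw
      have hg' : φ z' / φ z ≠ 1 := fun e => hg (div_eq_one.1 e)
      refine Finset.mem_biUnion.2 ⟨φ z' / φ z, ?_, ?_⟩
      · refine Finset.mem_image.2 ⟨φ z' / φ x, (hNF2 _ _ ha).2 ?_, ?_⟩
        · have h1 := hS.sum (y' / x) (z' / x) (by
            rw [Units.val_div_eq_div_val, Units.val_div_eq_div_val, hz']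
            field_simp)
          rwa [map_div, map_div, e] at h1
        · rw [div_mul_div_comm, mul_comm (φ x), mul_div_mul_right_eq_div]
      · refine Finset.mem_image.2 ⟨φ w / φ z, (hNF2 _ _ hg').2 ?_, ?_⟩
        · have h1 := hS.sum (w / z) (z' / z) (by
            rw [Units.val_div_eq_div_val, Units.val_div_eq_div_val, hz1]
            field_simp)
          rw [map_div, map_div] at h1
          exact hS.symm _ _ h1
        · exact mul_div_cancel _ _

end

/-- The basic lemma. -/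
theorem t_L1 : S_L1 := by
  intro F _ A _ φ Nn N hS x y z hz hxy
  exact ⟨l1_aux hS (by rw [hz, add_comm]) (Ne.symm hxy), l1_aux hS hz hxy⟩

/-- Constructing small units. -/
theorem t_PIG : S_PIG := by
  intro hC F _ p hp A _ φ Nn N M hS hL hpow r hr hrE y hy d hd
  classical
  obtain ⟨-, c2, -⟩ := hC F A φ M hS.neg hL
  have ht : ∀ i, φ (y i ^ p) = 1 := fun i => by rw [map_pow, hpow]
  have htE : ∀ i, En φ (p * M) (y i ^ p) := fun i => en_pow (hy i) p
  have htr : ∀ i, φ (y i ^ p * r) = φ r := fun i => by rw [map_mul, ht, one_mul]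
  have htrE : ∀ i, En φ (p * M + M) (y i ^ p * r) := fun i => en_mul (htE i) hrE
  have hx : ∀ i, ∃ x : Fˣ, (x : F) = 1 + (y i ^ p * r : Fˣ) := fun i =>
    exists_one_add hS.neg (by rw [htr]; exact hr)
  choose x hx using hx
  have hxE : ∀ i, En φ (p * M + M + M) (x i) := fun i =>
    c2 _ _ _ (by rw [htr]; exact hr) (htrE i) (hx i)
  have hxN : ∀ i, φ (x i) ∈ Nn (φ r) := fun i => by
    have := hS.sum _ _ (hx i)
    rwa [htr] at this
  have hb1 : p * M + M ≤ 9 * p ^ 2 * M := by nlinarith [Nat.mul_le_mul_right (p * M) hp]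
  by_cases hA : ∃ i, φ (x i) = 1
  · obtain ⟨i, hi⟩ := hA
    exact ⟨y i ^ p * r, en_mono hb1 (htrE i),
      ⟨x i, by rw [hx i, Units.val_one], by rw [hi, map_one]⟩, Or.inl (htr i)⟩
  by_cases hA' : ∃ i, φ (x i) = φ r
  · obtain ⟨i, hi⟩ := hA'
    refine ⟨(y i ^ p * r)⁻¹, en_mono hb1 (en_inv (htrE i)),
      ⟨x i / (y i ^ p * r), ?_, ?_⟩, Or.inr (Or.inl (by rw [map_inv, htr]))⟩
    · rw [Units.val_div_eq_div_val, hx i, Units.val_one, Units.val_inv_eq_inv_val]
      have : ((y i ^ p * r : Fˣ) : F) ≠ 0 := Units.ne_zero _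
      field_simp
      ring
    · rw [map_div, htr, hi, div_self', map_one]
  push Not at hA hA'
  obtain ⟨NF, hNF1, hNF2⟩ := exists_NF hS
  have h1 : (1 : A) ∈ NF (φ r) := (hNF2 _ _ hr).2 (one_mem _)
  have h2 : ((NF (φ r)).erase 1).card < (Finset.univ : Finset (Fin N)).card := by
    rw [Finset.card_fin]
    exact (Finset.card_erase_lt_of_mem h1).trans_le (hNF1 _)
  obtain ⟨i, -, j, -, hij, hc⟩ := Finset.exists_ne_map_eq_of_card_lt_of_maps_to h2
    (f := fun i => φ (x i)) (fun i _ => Finset.mem_erase.2 ⟨hA i, (hNF2 _ _ hr).2 (hxN i)⟩)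
  obtain ⟨hd1, hd2⟩ := hd i j hij
  refine ⟨d i j * r / x j, en_mono ?_ (en_div (en_mul hd2 hrE) (hxE j)),
    ⟨x i / x j, ?_, ?_⟩, Or.inr (Or.inr (Or.inl ⟨i, j, hij, φ r / φ (x j),
      div_mem (self_mem hS _) (hxN j), fun e => hA' j (div_eq_one.1 e).symm, ?_⟩))⟩
  · have e : p * (6 * p + 4) * M + M + (p * M + M + M) = (6 * p ^ 2 + 5 * p + 3) * M := by ring
    rw [e]
    apply Nat.mul_le_mul_right
    nlinarith
  · rw [Units.val_div_eq_div_val, Units.val_one, Units.val_div_eq_div_val, Units.val_mul, hd1]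
    have h3 : (x i : F) = 1 + (y i : F) ^ p * r := by
      rw [hx i, Units.val_mul, Units.val_pow_eq_pow_val]
    have h4 : (x j : F) = 1 + (y j : F) ^ p * r := by
      rw [hx j, Units.val_mul, Units.val_pow_eq_pow_val]
    have h5 : (x j : F) ≠ 0 := Units.ne_zero _
    rw [eq_comm, ← div_self h5, ← add_div]
    congr 1
    rw [h3, h4]
    ring
  · rw [map_div, map_one]
    exact div_eq_one.2 hc
  · rw [map_div, map_mul, mul_div_assoc]

end Pool.Agent.Y705.EP
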